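import Mathlib

/-!
The connected graphs in which every total dominating set is an ODPU-set are exactly the
complete graphs.
-/

namespace Pool.Agent.Results.MP_10a600_co.CompleteOnly

universe u

/-- The open `M`-distance pattern of `x`: the set of distances from `x` to the vertices of
`M` other than `x`. -/
def openPattern {V : Type u} (G : SimpleGraph V) (M : Set V) (x : V) : Set ℕ :=
  {d | ∃ v ∈ M, v ≠ x ∧ G.dist x v = d}

/-- `M` is an open distance pattern uniform (ODPU) set of `G`. -/
def IsODPU {V : Type u} (G : SimpleGraph V) (M : Set V) : Prop :=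
  M.Nonempty ∧ ∀ x y, openPattern G M x = openPattern G M y

/-- `S` is a total dominating set of `G`. -/
def IsTotalDominating {V : Type u} (G : SimpleGraph V) (S : Set V) : Prop :=
  ∀ v, ∃ w ∈ S, G.Adj v w

theorem exists_adj_dist_pred {V : Type u} (G : SimpleGraph V) (hG : G.Connected) (x w : V)
    (h : 0 < G.dist x w) : ∃ z, G.Adj w z ∧ G.dist x z = G.dist x w - 1 := by
  obtain ⟨p, hp⟩ := hG.exists_walk_length_eq_dist w x
  cases p with
  | nil => simp at h
  | @cons _ z _ hadj q =>
    refine ⟨z, hadj, ?_⟩
    have h1 : G.dist z x ≤ q.length := SimpleGraph.dist_le q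
    rw [SimpleGraph.Walk.length_cons] at hp
    have h2 : G.dist w x ≤ G.dist z x + 1 := by
      have := hG.dist_triangle (u := w) (v := z) (w := x)
      have h3 : G.dist w z = 1 := SimpleGraph.dist_eq_one_iff_adj.mpr hadj
      omega
    rw [SimpleGraph.dist_comm (u := x) (v := z), SimpleGraph.dist_comm (u := x) (v := w)]
    omega

theorem result {V : Type u} [Finite V] (G : SimpleGraph V) (hG : G.Connected) :
    (∀ S : Set V, IsTotalDominating G S → IsODPU G S) ↔ G = ⊤ := by
  classical
  constructor
  · intro h
    by_contra hne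
    -- two distinct nonadjacent vertices
    obtain ⟨a, b, hab, hnadj⟩ : ∃ a b, a ≠ b ∧ ¬ G.Adj a b := by
      by_contra hc
      push Not at hc
      apply hne
      ext a b
      simp only [SimpleGraph.top_adj]
      exact ⟨fun h => h.ne, fun h => hc a b h⟩
    haveI : Nonempty V := ⟨a⟩
    -- a vertex at maximum distance from `a`
    obtain ⟨v, hv⟩ := Finite.exists_max (fun v => G.dist a v)
    set r := G.dist a v with hr
    have hr2 : 2 ≤ r := by
      have h0 : 0 < G.dist a b := hG.pos_dist_of_ne hab
      have h1 : G.dist a b ≠ 1 := fun h => hnadj (SimpleGraph.dist_eq_one_iff_adj.mp h)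
      have := hv b
      omega
    have htd : IsTotalDominating G {w | G.dist a w < r} := by
      intro w
      by_cases hw : G.dist a w = 0
      · have hwa : a = w := (hG.dist_eq_zero_iff).mp hw
        subst hwa
        -- `a` has a neighbour
        obtain ⟨z, hz⟩ : ∃ z, G.Adj a z := by
          obtain ⟨p⟩ := hG.preconnected a b
          cases p with
          | nil => exact absurd rfl hab
          | @cons _ z _ hadj q => exact ⟨z, hadj⟩
        refine ⟨z, ?_, hz⟩
        have : G.dist a z = 1 := SimpleGraph.dist_eq_one_iff_adj.mpr hz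
        show G.dist a z < r
        omega
      · obtain ⟨z, hz, hd⟩ := exists_adj_dist_pred G hG a w (Nat.pos_of_ne_zero hw)
        refine ⟨z, ?_, hz⟩
        show G.dist a z < r
        have := hv w
        omega
    obtain ⟨-, hu⟩ := h _ htd
    have hmem : r ∈ openPattern G {w | G.dist a w < r} v := by
      refine ⟨a, ?_, ?_, ?_⟩
      · show G.dist a a < r
        rw [SimpleGraph.dist_self]; omega
      · intro hav
        rw [hav, SimpleGraph.dist_self] at hr
        omega
      · rw [SimpleGraph.dist_comm]
    rw [hu v a] at hmem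
    obtain ⟨w, hw, -, hd⟩ := hmem
    have hw' : G.dist a w < r := hw
    omega
  · rintro rfl S hS
    have hpat : ∀ x, openPattern (⊤ : SimpleGraph V) S x = {1} := by
      intro x
      ext d
      simp only [openPattern, Set.mem_setOf_eq, Set.mem_singleton_iff]
      constructor
      · rintro ⟨v, hv, hvx, hd⟩
        rw [← hd]
        exact SimpleGraph.dist_eq_one_iff_adj.mpr (by simpa using hvx.symm)
      · intro hd
        obtain ⟨w, hw, hadj⟩ := hS x
        refine ⟨w, hw, hadj.ne', ?_⟩
        rw [hd]
        exact SimpleGraph.dist_eq_one_iff_adj.mpr hadj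
    refine ⟨?_, fun x y => by rw [hpat x, hpat y]⟩
    obtain ⟨x⟩ := hG.nonempty
    obtain ⟨w, hw, -⟩ := hS x
    exact ⟨w, hw⟩

end Pool.Agent.Results.MP_10a600_co.CompleteOnly
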